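import Pool.Agent.Q141.Tile.Main

/-!
# MP_d0305a_co: the number of tiles is always `m² a b`

Partial result. Let `a, b, c` be pairwise coprime positive integers with `c² = a² + b² + a b`. If an
equilateral triangle tiles into `N` copies of the triangle with side lengths `a, b, c`, then
`N = m² a b` for a positive integer `m` (and the side is `m a b`). This was known for squarefree
`a, b` only; with the known tilings for `m ≥ M` it leaves of Q1, for every triple, only the finitely
many values `1 ≤ m < M`.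
-/

namespace Pool.Agent.Results.MP_d0305a_co.MultipleOfAB

/-- The Euclidean plane. -/
abbrev Plane : Type := EuclideanSpace ℝ (Fin 2)

/-- The closed triangle with the vertices `v 0`, `v 1`, `v 2`. -/
def Tri (v : Fin 3 → Plane) : Set Plane := convexHull ℝ (Set.range v)

/-- `v` is the vertex triple of a triangle with side lengths `a`, `b`, `c`, in some order. -/
def HasSides (v : Fin 3 → Plane) (a b c : ℝ) : Prop :=
  ∃ σ : Equiv.Perm (Fin 3), dist (v (σ 1)) (v (σ 2)) = a ∧ dist (v (σ 2)) (v (σ 0)) = b ∧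
    dist (v (σ 0)) (v (σ 1)) = c

/-- An equilateral triangle with positive side `X` is the union of `N` triangles with side lengths
`a`, `b`, `c` whose interiors are pairwise disjoint. -/
def EquilateralTiles (a b c : ℝ) (X : ℝ) (N : ℕ) : Prop :=
  0 < X ∧ ∃ (T : Fin 3 → Plane) (P : Fin N → Fin 3 → Plane), HasSides T X X X ∧
    (∀ i, HasSides (P i) a b c) ∧ (⋃ i, Tri (P i)) = Tri T ∧
    ∀ i j, i ≠ j → Disjoint (interior (Tri (P i))) (interior (Tri (P j)))

theorem result (a b c : ℕ) (ha : 0 < a) (hb : 0 < b) (hc : 0 < c) (hab : Nat.gcd a b = 1)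
    (hbc : Nat.gcd b c = 1) (hca : Nat.gcd c a = 1) (heq : c ^ 2 = a ^ 2 + b ^ 2 + a * b) (X : ℝ)
    (N : ℕ) (h : EquilateralTiles a b c X N) :
    ∃ m : ℕ, 1 ≤ m ∧ X = m * (a * b) ∧ N = m ^ 2 * (a * b) := by
  obtain ⟨hX, h⟩ := h
  obtain ⟨m, h1, h2, h3⟩ := Pool.Agent.Q141.Tile.main_div a b c ha hb hab heq X hX N h
  exact ⟨m, h1, h2, h3⟩

end Pool.Agent.Results.MP_d0305a_co.MultipleOfAB
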